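import Pool.Agent.H34.WB.Stm

/-!
# Project WB, module `S_count`: polynomially many rotation patterns
-/

set_option autoImplicit false

open MeasureTheory Filter Topology Set
open Pool.Agent.H34.WB

noncomputable section

namespace Pool.Agent.H50.WB

theorem fr_mem (z : UnitAddCircle) : 0 ≤ fr z ∧ fr z < 1 := by
  have h := (AddCircle.equivIco (1 : ℝ) 0 z).2
  obtain ⟨h1, h2⟩ := h
  refine ⟨h1, ?_⟩
  unfold fr
  linarith

theorem coe_fr (z : UnitAddCircle) : ((fr z : ℝ) : UnitAddCircle) = z :=
  AddCircle.coe_equivIco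

theorem fr_eq {z : UnitAddCircle} {t : ℝ} (h0 : 0 ≤ t) (h1 : t < 1) (h : (t : UnitAddCircle) = z) :
    fr z = t := by
  have h2 : ((fr z : ℝ) : UnitAddCircle) = (t : UnitAddCircle) := by rw [coe_fr, h]
  exact (AddCircle.coe_eq_coe_iff_of_mem_Ico (p := (1 : ℝ)) (a := 0)
    (by simpa using fr_mem z) (by simpa using ⟨h0, h1⟩)).1 h2

theorem fr_add (z v : UnitAddCircle) :
    fr (z + v) = if fr v < 1 - fr z then fr z + fr v else fr z + fr v - 1 := by
  have h1 := fr_mem z
  have h2 := fr_mem v
  split_ifs with h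
  · apply fr_eq (by linarith) (by linarith)
    rw [AddCircle.coe_add, coe_fr, coe_fr]
  · apply fr_eq (by linarith) (by linarith)
    rw [AddCircle.coe_sub, AddCircle.coe_add, coe_fr, coe_fr, AddCircle.coe_period, sub_zero]

/-- initial segments -/
def seg {n : ℕ} (u : Fin n → ℝ) (c : ℝ) : Finset (Fin n) :=
  open Classical in Finset.univ.filter fun i => u i < c

theorem seg_card {n : ℕ} (u : Fin n → ℝ) : ∃ S : Finset (Finset (Fin n)), S.card ≤ n + 1 ∧
    ∀ c, seg u c ∈ S := by
  classical
  refine ⟨(Set.range (seg u)).toFinset, ?_, fun c => by simp⟩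
  have h : (Set.range (seg u)).toFinset.card ≤ (Finset.range (n + 1)).card := by
    apply Finset.card_le_card_of_injOn Finset.card
    · intro A _
      have := Finset.card_le_univ A
      simp only [Fintype.card_fin] at this
      simp only [Finset.coe_range, Set.mem_Iio]
      omega
    · intro A hA B hB hAB
      simp only [Set.coe_toFinset, Set.mem_range] at hA hB
      obtain ⟨a, rfl⟩ := hA
      obtain ⟨b, rfl⟩ := hB
      rcases le_total a b with h | h
      · apply Finset.eq_of_subset_of_card_le _ hAB.ge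
        intro i hi
        simp only [seg, Finset.mem_filter, Finset.mem_univ, true_and] at hi ⊢
        linarith
      · symm
        apply Finset.eq_of_subset_of_card_le _ hAB.le
        intro i hi
        simp only [seg, Finset.mem_filter, Finset.mem_univ, true_and] at hi ⊢
        linarith
  simpa using h

/-- `(A ∩ B) ∪ (C \\ A)` -/
def G {n : ℕ} (A B C : Finset (Fin n)) : Finset (Fin n) :=
  open Classical in (A ∩ B) ∪ (C \ A)

theorem mem_G {n : ℕ} (u : Fin n → ℝ) (t r : ℝ) (i : Fin n) :
    i ∈ G (seg u (1 - t)) (seg u (r - t)) (seg u (r + 1 - t)) ↔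
      (if u i < 1 - t then t + u i else t + u i - 1) < r := by
  classical
  simp only [G, seg, Finset.mem_union, Finset.mem_inter, Finset.mem_sdiff, Finset.mem_filter,
    Finset.mem_univ, true_and]
  split_ifs with h
  · simp only [h, not_true, and_false, or_false, true_and]
    constructor <;> intro h1 <;> linarith
  · simp only [h, not_false_eq_true, and_true, false_and, false_or]
    constructor <;> intro h1 <;> linarith

theorem s_count : S_count := by
  classical
  intro α
  refine ⟨5, fun n => ?_⟩
  set u : Fin n → ℝ := fun i => fr (((i : ℕ) : ℤ) • (α : UnitAddCircle)) with hu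
  obtain ⟨S, hS, hS1⟩ := seg_card u
  set A1 : Finset (Finset (Fin n)) := (S ×ˢ S ×ˢ S).image fun p => G p.1 p.2.1 p.2.2 with hA1
  set A2 : Finset (Finset (Fin n)) := (S ×ˢ S ×ˢ S ×ˢ S ×ˢ S).image
    fun p => G p.1 p.2.1 p.2.2.1 \ G p.1 p.2.2.2.1 p.2.2.2.2 with hA2
  have hsub : Set.range (zeros (typ α) n) ⊆ ((A1 ∪ A2 : Finset (Finset (Fin n))) : Set _) := by
    rintro _ ⟨ω, rfl⟩
    obtain ⟨b, ⟨x, y⟩, θ⟩ := ω
    rw [Finset.coe_union]
    have hz : ∀ i : Fin n, fr (θ + ((i : ℕ) : ℤ) • (α : UnitAddCircle)) =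
        if u i < 1 - fr θ then fr θ + u i else fr θ + u i - 1 := fun i => fr_add _ _
    cases b with
    | false =>
      left
      rw [Finset.mem_coe, hA1, Finset.mem_image]
      refine ⟨(seg u (1 - fr θ), seg u (1 - x - fr θ), seg u (1 - x + 1 - fr θ)), ?_, ?_⟩
      · simp only [Finset.mem_product]
        exact ⟨hS1 _, hS1 _, hS1 _⟩
      · ext i
        rw [mem_G, ← hz i]
        simp only [zeros, Finset.mem_filter, Finset.mem_univ, true_and, typ]
        split_ifs <;> simp_all
    | true =>
      right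
      rw [Finset.mem_coe, hA2, Finset.mem_image]
      refine ⟨(seg u (1 - fr θ), seg u (2 - x - y - fr θ), seg u (2 - x - y + 1 - fr θ),
        seg u (1 - x - fr θ), seg u (1 - x + 1 - fr θ)), ?_, ?_⟩
      · simp only [Finset.mem_product]
        exact ⟨hS1 _, hS1 _, hS1 _, hS1 _, hS1 _⟩
      · ext i
        rw [Finset.mem_sdiff, mem_G, mem_G, ← hz i]
        simp only [zeros, Finset.mem_filter, Finset.mem_univ, true_and, typ]
        split_ifs <;> simp_all [sw]
  have h1 : (Set.range (zeros (typ α) n)).ncard ≤ (A1 ∪ A2).card := by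
    have := Set.ncard_le_ncard hsub (Finset.finite_toSet _)
    rwa [Set.ncard_coe_finset] at this
  have h2 : A1.card ≤ (n + 1) ^ 3 := by
    refine Finset.card_image_le.trans ?_
    rw [Finset.card_product, Finset.card_product]
    calc S.card * (S.card * S.card) = S.card ^ 3 := by ring
      _ ≤ (n + 1) ^ 3 := Nat.pow_le_pow_left hS 3
  have h3 : A2.card ≤ (n + 1) ^ 5 := by
    refine Finset.card_image_le.trans ?_
    rw [Finset.card_product, Finset.card_product, Finset.card_product, Finset.card_product]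
    calc S.card * (S.card * (S.card * (S.card * S.card))) = S.card ^ 5 := by ring
      _ ≤ (n + 1) ^ 5 := Nat.pow_le_pow_left hS 5
  have h4 : (A1 ∪ A2).card ≤ A1.card + A2.card := Finset.card_union_le _ _
  have h5 : (n + 1) ^ 3 ≤ (n + 1) ^ 5 := Nat.pow_le_pow_right (by omega) (by norm_num)
  calc (Set.range (zeros (typ α) n)).ncard ≤ (n + 1) ^ 3 + (n + 1) ^ 5 := by omega
    _ ≤ 5 * (n + 1) ^ 5 := by omega

end Pool.Agent.H50.WB
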